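import Pool.Agent.Q214.CL.Limit

set_option autoImplicit false

namespace Pool.Agent.Results.MP_78de02_pr.RankZeroCriterion

open MeasureTheory Filter Topology Pool.Agent.Q214.CL Pool.Agent.Q214.MP59a

/-- The matrix supported on `σ`: entry `(i, j)` is `ω (i, j)` if `i ∈ σ j` and `0` otherwise. -/
noncomputable def sparse {p : ℕ} [Fact p.Prime] {n : ℕ} (σ : Fin n → Set (Fin n))
    (ω : Fin n × Fin n → ℤ_[p]) : Matrix (Fin n) (Fin n) ℤ_[p] :=
  Matrix.of fun i j => by classical exact if i ∈ σ j then ω (i, j) else 0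

/-- Independent Haar entries: the product of the Haar probability measures of `ℤ_p`. -/
noncomputable def law (p : ℕ) [Fact p.Prime] (n : ℕ) : Measure (Fin n × Fin n → ℤ_[p]) :=
  Measure.pi fun _ => haarZ p

/-- The cokernel `ℤ_p^n / X ℤ_p^n`. -/
abbrev cok {p : ℕ} [Fact p.Prime] {n : ℕ} (X : Matrix (Fin n) (Fin n) ℤ_[p]) : Type :=
  (Fin n → ℤ_[p]) ⧸ LinearMap.range X.mulVecLin

/-- The constant `c_p = ∏_{i≥1} (1 - p^{-i})`. -/
noncomputable def c (p : ℕ) : ℝ := ∏' i : ℕ, (1 - ((p : ℝ) ^ (i + 1))⁻¹)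

/-- The Cohen-Lenstra mass of `G`. -/
noncomputable def clMass (p : ℕ) (G : Type) [AddCommGroup G] : ℝ :=
  1 / (Nat.card (AddAut G) : ℝ) * c p

variable {p : ℕ} [hp : Fact p.Prime]

theorem col_sparse {n : ℕ} (σ : Fin n → Set (Fin n)) (ω : Fin n × Fin n → ℤ_[p]) (j : Fin n) :
    (sparse σ ω).col j = mask ℤ_[p] (σ j) (fun i => ω (i, j)) := by
  funext i
  by_cases h : i ∈ σ j
  · rw [mask_mem _ h]
    simp [sparse, Matrix.col, h]
  · rw [mask_not_mem _ h]
    simp [sparse, Matrix.col, h]

theorem cok_event (M n : ℕ) (σ : Fin n → Set (Fin n)) (G : Type) [AddCommGroup G]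
    (hG : ∀ g : G, p ^ M • g = 0) :
    (law p n).real {ω | Nonempty (cok (sparse σ ω) ≃+ G)} = pG p M σ G := by
  classical
  have h1 : {ω : Fin n × Fin n → ℤ_[p] | Nonempty (cok (sparse σ ω) ≃+ G)} =
      {ω | (fun a : Fin n × Fin n → ZMod (p ^ (M + 1)) => Nonempty
        (((Fin n → ZMod (p ^ (M + 1))) ⧸ Submodule.span (ZMod (p ^ (M + 1)))
          (Set.range fun j => mask (ZMod (p ^ (M + 1))) (σ j) (fun i => a (i, j)))) ≃+ G))
        fun q => (PadicInt.toZModPow (M + 1) : ℤ_[p] →+* ZMod (p ^ (M + 1))).toAddMonoidHom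
          (ω q)} := by
    ext ω
    simp only [Set.mem_ofPred_eq]
    rw [cok_red M n _ G hG]
    have h2 : Submodule.map (rL M n) (LinearMap.range (sparse σ ω).mulVecLin) =
        Submodule.span (ZMod (p ^ (M + 1)))
          (Set.range fun j => mask (ZMod (p ^ (M + 1))) (σ j) (fun i =>
            (PadicInt.toZModPow (M + 1) : ℤ_[p] →+* ZMod (p ^ (M + 1))).toAddMonoidHom
              (ω (i, j)))) := by
      rw [Matrix.range_mulVecLin, Submodule.map_span, ← Set.range_comp]
      congr 2
      funext j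
      simp only [Function.comp_apply]
      rw [col_sparse]
      funext i
      rw [rL_apply]
      by_cases h : i ∈ σ j
      · rw [mask_mem _ h, mask_mem _ h]
        rfl
      · rw [mask_not_mem _ h, mask_not_mem _ h, map_zero]
    rw [h2]
  rw [h1]
  unfold law
  rw [haar_av (p := p) (PadicInt.toZModPow (M + 1) : ℤ_[p] →+* ZMod (p ^ (M + 1))).toAddMonoidHom
    (ZMod.ringHom_surjective _) (meas_ker_pow (M + 1))
    (fun a : Fin n × Fin n → ZMod (p ^ (M + 1)) => Nonempty
        (((Fin n → ZMod (p ^ (M + 1))) ⧸ Submodule.span (ZMod (p ^ (M + 1)))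
          (Set.range fun j => mask (ZMod (p ^ (M + 1))) (σ j) (fun i => a (i, j)))) ≃+ G))]
  unfold pG
  let e : (Fin n × Fin n → ZMod (p ^ (M + 1))) ≃ (Fin n → Fin n → ZMod (p ^ (M + 1))) :=
    (Equiv.arrowCongr (Equiv.prodComm (Fin n) (Fin n)) (Equiv.refl _)).trans
      (Equiv.curry (Fin n) (Fin n) (ZMod (p ^ (M + 1))))
  rw [← unif_equiv e]
  rfl

theorem det_event (n : ℕ) (σ : Fin n → Set (Fin n)) :
    (law p n).real {ω | ((sparse σ ω).map PadicInt.toZMod).det ≠ 0} = pD p σ := by
  classical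
  have h1 : {ω : Fin n × Fin n → ℤ_[p] | ((sparse σ ω).map PadicInt.toZMod).det ≠ 0} =
      {ω | (fun a : Fin n × Fin n → ZMod p => LinearIndependent (ZMod p) fun j =>
        mask (ZMod p) (σ j) (fun i => a (i, j)))
        fun q => (PadicInt.toZMod : ℤ_[p] →+* ZMod p).toAddMonoidHom (ω q)} := by
    ext ω
    simp only [Set.mem_ofPred_eq]
    have h2 : (fun j => mask (ZMod p) (σ j) (fun i =>
        (PadicInt.toZMod : ℤ_[p] →+* ZMod p).toAddMonoidHom (ω (i, j)))) =
        ((sparse σ ω).map PadicInt.toZMod).col := by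
      funext j i
      by_cases h : i ∈ σ j
      · rw [mask_mem _ h]
        simp [sparse, Matrix.col, h]
      · rw [mask_not_mem _ h]
        simp [sparse, Matrix.col, h]
    rw [h2, Matrix.linearIndependent_cols_iff_isUnit, Matrix.isUnit_iff_isUnit_det,
      isUnit_iff_ne_zero]
  rw [h1]
  unfold law
  rw [haar_av (p := p) (PadicInt.toZMod : ℤ_[p] →+* ZMod p).toAddMonoidHom
    (ZMod.ringHom_surjective _) meas_ker_one
    (fun a : Fin n × Fin n → ZMod p => LinearIndependent (ZMod p) fun j =>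
        mask (ZMod p) (σ j) (fun i => a (i, j)))]
  unfold pD
  let e : (Fin n × Fin n → ZMod p) ≃ (Fin n → Fin n → ZMod p) :=
    (Equiv.arrowCongr (Equiv.prodComm (Fin n) (Fin n)) (Equiv.refl _)).trans
      (Equiv.curry (Fin n) (Fin n) (ZMod p))
  rw [← unif_equiv e]
  rfl

/-- The cokernel is trivial exactly when the reduction is invertible. -/
theorem trivial_event (n : ℕ) (X : Matrix (Fin n) (Fin n) ℤ_[p]) :
    Nonempty (cok X ≃+ PUnit.{1}) ↔ (X.map PadicInt.toZMod).det ≠ 0 := by
  have h1 : Nonempty (cok X ≃+ PUnit.{1}) ↔ LinearMap.range X.mulVecLin = ⊤ := by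
    rw [← Submodule.Quotient.subsingleton_iff]
    constructor
    · rintro ⟨e⟩
      exact e.toEquiv.subsingleton
    · intro h
      exact ⟨{ toFun := fun _ => PUnit.unit
               invFun := fun _ => 0
               left_inv := fun x => Subsingleton.elim _ _
               right_inv := fun x => rfl
               map_add' := fun _ _ => rfl }⟩
  rw [h1, LinearMap.range_eq_top]
  have h2 : Function.Surjective X.mulVecLin ↔ IsUnit X.det := by
    rw [← Matrix.isUnit_iff_isUnit_det, ← Matrix.mulVec_surjective_iff_isUnit]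
    rfl
  rw [h2]
  have h3 : (X.map PadicInt.toZMod).det = (PadicInt.toZMod : ℤ_[p] →+* ZMod p) X.det := by
    rw [RingHom.map_det]
    rfl
  rw [h3]
  have h4 : (PadicInt.toZMod : ℤ_[p] →+* ZMod p) X.det = 0 ↔
      X.det ∈ IsLocalRing.maximalIdeal ℤ_[p] := by
    rw [← PadicInt.ker_toZMod, RingHom.mem_ker]
  rw [Ne, h4, IsLocalRing.mem_maximalIdeal, mem_nonunits_iff, not_not]

/-- The rank-zero criterion: for every prime and every sequence of supports, the cokernels converge
to the Cohen-Lenstra distribution if and only if the probability that the reduction is invertible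
converges to `c_p`. -/
theorem result (p : ℕ) [Fact p.Prime] (σ : (n : ℕ) → Fin n → Set (Fin n)) :
    (∀ (G : Type) [AddCommGroup G] [Finite G], (∃ e : ℕ, Nat.card G = p ^ e) →
      Tendsto (fun n => (law p n).real {ω | Nonempty (cok (sparse (σ n) ω) ≃+ G)}) atTop
        (𝓝 (clMass p G))) ↔
    Tendsto (fun n => (law p n).real {ω | ((sparse (σ n) ω).map PadicInt.toZMod).det ≠ 0}) atTop
      (𝓝 (c p)) := by
  constructor
  · intro h
    have h1 := h PUnit.{1} ⟨0, by simp⟩
    have h2 : clMass p PUnit.{1} = c p := by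
      unfold clMass
      have : Nat.card (AddAut PUnit.{1}) = 1 := by
        rw [Nat.card_eq_one_iff_unique]
        exact ⟨⟨fun a b => AddEquiv.ext fun x => rfl⟩, ⟨AddEquiv.refl _⟩⟩
      rw [this]
      simp
    rw [h2] at h1
    refine h1.congr fun n => ?_
    congr 1
    ext ω
    exact trivial_event n _
  · intro h G _ _ hG
    obtain ⟨M, hM⟩ := hG
    have hG' : ∀ g : G, p ^ M • g = 0 := by
      intro g
      rw [← hM]
      exact card_nsmul_eq_zero'
    simp only [det_event] at h
    simp only [cok_event M _ _ G hG']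
    exact limit p M G hG' σ h

end Pool.Agent.Results.MP_78de02_pr.RankZeroCriterion
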